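import Pool.Agent.Run7.h608.TK.Iface

/-!
# Piece STR
-/

set_option autoImplicit false

open MeasureTheory Set Filter Topology
open scoped ENNReal
open R109.GT

namespace Run7.h849.TK

open Run7.h608.TK

theorem occ_apply {w : ℕ → ℤ → ℤ} (hw : Sgn w) {E : Set ℝ} (hE : MeasurableSet E) :
    occ w E = volume {x : ℝ | x ∈ Ico (0:ℝ) 1 ∧ tak w x ∈ E} := by
  rw [occ, Measure.map_apply (cont w hw).measurable hE,
    Measure.restrict_apply ((cont w hw).measurable hE)]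
  congr 1
  ext x
  exact ⟨fun h => ⟨h.2, h.1⟩, fun h => ⟨h.2, h.1⟩⟩

/-- rescaling of an interval of slope zero -/
theorem vol_loc (hSC : S_SC) {w : ℕ → ℤ → ℤ} (hw : Sgn w) (n : ℕ) (i : ℤ)
    (h0 : slope w n i = 0) {E : Set ℝ} (hE : MeasurableSet E) :
    volume {x : ℝ | x ∈ J n i ∧ (2:ℝ) ^ n * tak w x - val w n i ∈ E} =
      ENNReal.ofReal (1 / 2 ^ n) * occ (sh w n i) E := by
  obtain ⟨hs, h1, -⟩ := hSC w hw n i
  rw [occ_apply hs hE]
  have h2 : {x : ℝ | x ∈ J n i ∧ (2:ℝ) ^ n * tak w x - val w n i ∈ E} =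
      (fun x : ℝ => (2:ℝ) ^ n * x) ⁻¹' ((fun y : ℝ => y + (-(i:ℝ))) ⁻¹'
        {x : ℝ | x ∈ Ico (0:ℝ) 1 ∧ tak (sh w n i) x ∈ E}) := by
    ext x
    simp only [mem_ofPred_eq, mem_preimage]
    have h3 : x ∈ J n i ↔ (2:ℝ) ^ n * x + -(i:ℝ) ∈ Ico (0:ℝ) 1 := by
      show ⌊(2:ℝ) ^ n * x⌋ = i ↔ _
      rw [Int.floor_eq_iff, mem_Ico]
      constructor
      · rintro ⟨h, h'⟩
        exact ⟨by linarith, by linarith⟩
      · rintro ⟨h, h'⟩
        exact ⟨by linarith, by linarith⟩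
    rw [← h3]
    refine and_congr_right fun hx => ?_
    have h4 := h1 x hx
    rw [h0] at h4
    rw [h4, ← sub_eq_add_neg]
    have h5 : (val w n i : ℝ) + ((0:ℤ) : ℝ) * ((2:ℝ) ^ n * x - i) +
        tak (sh w n i) ((2:ℝ) ^ n * x - i) - val w n i = tak (sh w n i) ((2:ℝ) ^ n * x - i) := by
      push_cast
      ring
    rw [h5]
  rw [h2, Real.volume_preimage_mul_left (by positivity), measure_preimage_add_right]
  congr 2
  rw [abs_of_pos (by positivity), one_div]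

theorem sgn_neg' {v : ℕ → ℤ → ℤ} (hv : Sgn v) : Sgn (fun n j => -v n j) := by
  intro n j
  rcases hv n j with h | h
  · exact Or.inr (by show -v n j = -1; rw [h])
  · exact Or.inl (by show -v n j = 1; rw [h]; rfl)

theorem occ_neg {v : ℕ → ℤ → ℤ} (hv : Sgn v) {E : Set ℝ} (hE : MeasurableSet E) :
    occ (fun n j => -v n j) E = occ v (-E) := by
  rw [occ_apply (sgn_neg' hv) hE, occ_apply hv hE.neg]
  congr 1
  ext x
  rw [mem_ofPred_eq, mem_ofPred_eq, PB.tak_neg, Set.mem_neg]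

theorem Bd_neg {v : ℕ → ℤ → ℤ} (hv : Sgn v) {D : ℝ} (h : Bd v D) :
    Bd (fun n j => -v n j) D := by
  refine Measure.le_iff.2 fun E hE => ?_
  rw [occ_neg hv hE]
  refine (Measure.le_iff.1 h _ hE.neg).trans (le_of_eq ?_)
  rw [Measure.smul_apply, Measure.smul_apply, Measure.measure_neg]

theorem loc (hSC : S_SC) (hHER : S_HER) {D0 : ℝ} {w : ℕ → ℤ → ℤ} (hw : Sgn w) (hB : Bd w D0)
    {η r : ℝ} (hη : η < D0)
    (hU : ∀ w : ℕ → ℤ → ℤ, Sgn w → Bd w D0 → w 0 0 = 1 → ∃ a b : ℝ, 1 / 8 ≤ a ∧ a + r ≤ b ∧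
      b ≤ 3 / 8 ∧ ENNReal.ofReal ((D0 - η) * (b - a)) ≤ occ w (Icc a b)) (hr : 0 < r)
    (n : ℕ) (i : ℤ) (hi : i ∈ ivs n) (h0 : slope w n i = 0) :
    ∃ α β : ℝ, (cell w n i : ℝ) ≤ α ∧ α + r ≤ β ∧ β ≤ (cell w n i : ℝ) + 1 ∧
      ENNReal.ofReal ((D0 - η) * (β - α) / 2 ^ n) ≤
        volume {x : ℝ | x ∈ J n i ∧ α ≤ 2 ^ n * tak w x ∧ 2 ^ n * tak w x ≤ β} := by
  have hv := (hSC w hw n i).1
  have hvB := hHER w D0 hw hB n i hi h0
  have hv0 : sh w n i 0 0 = w n i := by simp [sh]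
  have h2n : (0:ℝ) < 2 ^ n := by positivity
  by_cases h1 : w n i = 1
  · obtain ⟨a, b, ha, hab, hb, h2⟩ := hU _ hv hvB (by rw [hv0, h1])
    have hc : cell w n i = val w n i := if_pos h1
    refine ⟨val w n i + a, val w n i + b, by rw [hc]; linarith, by linarith,
      by rw [hc]; linarith, ?_⟩
    have h3 := vol_loc hSC hw n i h0 (E := Icc a b) measurableSet_Icc
    have h4 : {x : ℝ | x ∈ J n i ∧ (2:ℝ) ^ n * tak w x - val w n i ∈ Icc a b} =
        {x : ℝ | x ∈ J n i ∧ val w n i + a ≤ 2 ^ n * tak w x ∧ 2 ^ n * tak w x ≤ val w n i + b} := by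
      ext x
      simp only [mem_ofPred_eq, mem_Icc]
      refine and_congr_right fun _ => ?_
      constructor
      · rintro ⟨h, h'⟩
        exact ⟨by linarith, by linarith⟩
      · rintro ⟨h, h'⟩
        exact ⟨by linarith, by linarith⟩
    rw [← h4, h3]
    refine le_trans (le_of_eq ?_) (mul_le_mul_right h2 _)
    rw [← ENNReal.ofReal_mul (by positivity)]
    congr 1
    ring
  · have h1' : w n i = -1 := (hw n i).resolve_left h1
    obtain ⟨a, b, ha, hab, hb, h2⟩ := hU _ (sgn_neg' hv) (Bd_neg hv hvB) (by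
      show -(sh w n i 0 0) = 1
      rw [hv0, h1']
      rfl)
    rw [occ_neg hv measurableSet_Icc] at h2
    have hc : cell w n i = val w n i - 1 := if_neg h1
    refine ⟨val w n i - b, val w n i - a, by rw [hc]; push_cast; linarith, by linarith,
      by rw [hc]; push_cast; linarith, ?_⟩
    have h3 := vol_loc hSC hw n i h0 (E := -Icc a b) measurableSet_Icc.neg
    have h4 : {x : ℝ | x ∈ J n i ∧ (2:ℝ) ^ n * tak w x - val w n i ∈ -Icc a b} =
        {x : ℝ | x ∈ J n i ∧ val w n i - b ≤ 2 ^ n * tak w x ∧ 2 ^ n * tak w x ≤ val w n i - a} := by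
      ext x
      simp only [mem_ofPred_eq, Set.mem_neg, mem_Icc]
      refine and_congr_right fun _ => ?_
      constructor
      · rintro ⟨h, h'⟩
        exact ⟨by linarith, by linarith⟩
      · rintro ⟨h, h'⟩
        exact ⟨by linarith, by linarith⟩
    rw [← h4, h3]
    refine le_trans (le_of_eq ?_) (mul_le_mul_right h2 _)
    rw [← ENNReal.ofReal_mul (by positivity)]
    congr 1
    ring

theorem J_sub {n : ℕ} {i : ℤ} (hi : i ∈ ivs n) {x : ℝ} (hx : x ∈ J n i) : x ∈ Ico (0:ℝ) 1 := by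
  obtain ⟨h1, h2⟩ := Finset.mem_Ico.1 hi
  have h3 : ⌊(2:ℝ) ^ n * x⌋ = i := hx
  rw [Int.floor_eq_iff] at h3
  obtain ⟨h4, h5⟩ := h3
  have h6 : (0:ℝ) < 2 ^ n := by positivity
  have h7 : (0:ℝ) ≤ i := by exact_mod_cast h1
  have h8 : (i:ℝ) + 1 ≤ 2 ^ n := by exact_mod_cast h2
  constructor
  · by_contra h
    push Not at h
    nlinarith
  · by_contra h
    push Not at h
    nlinarith

theorem t_STR : S_SC → S_HER → S_UNI → S_STP → S_STR := by
  intro hSC hHER hUNI hSTP D0 hD w hw hB η hη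
  have hD0 := hD.1
  obtain ⟨e, he0, he1, he2, he3⟩ : ∃ e : ℝ, 0 < e ∧ e ≤ 1 / 2 ∧ 2 * e ≤ η ∧ e < D0 :=
    ⟨min (1 / 2) (min (η / 2) (D0 / 2)), by positivity, min_le_left _ _, by
      have : min (1 / 2 : ℝ) (min (η / 2) (D0 / 2)) ≤ η / 2 :=
        (min_le_right _ _).trans (min_le_left _ _)
      linarith, by
      have : min (1 / 2 : ℝ) (min (η / 2) (D0 / 2)) ≤ D0 / 2 :=
        (min_le_right _ _).trans (min_le_right _ _)
      linarith⟩
  obtain ⟨r, hr, hU⟩ := hUNI D0 hD e he0 he3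
  obtain ⟨K, hK⟩ := hSTP e r he0 hr
  refine ⟨K, fun n i hi h0 => ?_⟩
  obtain ⟨α, β, h1, h2, h3, h4⟩ := loc hSC hHER hw hB he3 hU hr n i hi h0
  set F := (ivs n).filter (fun i' => Cr w n i' (cell w n i) ∧ (K:ℤ) < |slope w n i'|) with hF
  set A : ℤ → Set ℝ := fun i' => {x : ℝ | x ∈ J n i' ∧ α ≤ 2 ^ n * tak w x ∧
    2 ^ n * tak w x ≤ β} with hA
  have hiF : i ∉ F := by
    intro h
    have h5 := (Finset.mem_filter.1 h).2.2
    rw [h0, abs_zero] at h5
    omega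
  have h2n : (0:ℝ) < 2 ^ n := by positivity
  have hmeas : ∀ i', MeasurableSet (A i') := by
    intro i'
    refine (PC.measurableSet_J n i').inter ?_
    have hc : Measurable fun x : ℝ => (2:ℝ) ^ n * tak w x := (cont w hw).measurable.const_mul _
    exact (measurableSet_le measurable_const hc).inter (measurableSet_le hc measurable_const)
  have hdisj : (↑(insert i F) : Set ℤ).PairwiseDisjoint A := by
    intro p _ q _ hpq
    refine Set.disjoint_left.2 ?_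
    rintro x ⟨hx, -⟩ ⟨hx', -⟩
    exact hpq (hx.symm.trans hx')
  have hsum : ∑ i' ∈ insert i F, volume (A i') ≤ ENNReal.ofReal (D0 * (β - α) / 2 ^ n) := by
    rw [← measure_biUnion_finset hdisj fun p _ => hmeas p]
    have h5 : (⋃ p ∈ insert i F, A p) ⊆
        {x : ℝ | x ∈ Ico (0:ℝ) 1 ∧ tak w x ∈ Icc (α / 2 ^ n) (β / 2 ^ n)} := by
      intro x hx
      simp only [mem_iUnion] at hx
      obtain ⟨p, hp, hx1, hx2, hx3⟩ := hx
      have hp' : p ∈ ivs n := by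
        rcases Finset.mem_insert.1 hp with rfl | hp
        · exact hi
        · exact (Finset.mem_filter.1 hp).1
      refine ⟨J_sub hp' hx1, ?_, ?_⟩
      · rw [div_le_iff₀ h2n]
        linarith
      · rw [le_div_iff₀ h2n]
        linarith
    refine (measure_mono h5).trans ?_
    rw [← occ_apply hw measurableSet_Icc]
    refine (Measure.le_iff.1 hB _ measurableSet_Icc).trans ?_
    rw [Measure.smul_apply, Real.volume_Icc, smul_eq_mul, ← ENNReal.ofReal_mul hD0.le]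
    refine le_of_eq ?_
    congr 1
    ring
  rw [Finset.sum_insert hiF] at hsum
  have h6 : ENNReal.ofReal ((D0 - e) * (β - α) / 2 ^ n) +
      ∑ i' ∈ F, ENNReal.ofReal ((1 - e) * (β - α) / |(slope w n i' : ℝ)| / 2 ^ n) ≤
      ENNReal.ofReal (D0 * (β - α) / 2 ^ n) := by
    refine le_trans (add_le_add h4 (Finset.sum_le_sum fun i' hi' => ?_)) hsum
    obtain ⟨-, h7, h8⟩ := Finset.mem_filter.1 hi'
    exact hK w hw n i' (cell w n i) h8 h7 α β h1 h2 h3
  have hab : 0 < β - α := by linarith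
  have hnn : ∀ i' ∈ F, 0 ≤ (1 - e) * (β - α) / |(slope w n i' : ℝ)| / 2 ^ n := fun i' _ => by
    have : 0 ≤ 1 - e := by linarith
    positivity
  rw [← ENNReal.ofReal_sum_of_nonneg hnn, ← ENNReal.ofReal_add
    (div_nonneg (mul_nonneg (by linarith) hab.le) h2n.le) (Finset.sum_nonneg hnn),
    ENNReal.ofReal_le_ofReal_iff (div_nonneg (mul_nonneg hD0.le hab.le) h2n.le)] at h6
  have h7 : ∑ i' ∈ F, (1 - e) * (β - α) / |(slope w n i' : ℝ)| / 2 ^ n =
      ((β - α) / 2 ^ n) * ((1 - e) * ∑ i' ∈ F, 1 / |(slope w n i' : ℝ)|) := by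
    rw [Finset.mul_sum, Finset.mul_sum]
    refine Finset.sum_congr rfl fun i' _ => ?_
    ring
  rw [h7] at h6
  have h8 : ((β - α) / 2 ^ n) * ((D0 - e) + (1 - e) * ∑ i' ∈ F, 1 / |(slope w n i' : ℝ)|) ≤
      ((β - α) / 2 ^ n) * D0 := by
    have e1 : ((β - α) / 2 ^ n) * ((D0 - e) + (1 - e) * ∑ i' ∈ F, 1 / |(slope w n i' : ℝ)|) =
      (D0 - e) * (β - α) / 2 ^ n +
        ((β - α) / 2 ^ n) * ((1 - e) * ∑ i' ∈ F, 1 / |(slope w n i' : ℝ)|) := by ring
    have e2 : ((β - α) / 2 ^ n) * D0 = D0 * (β - α) / 2 ^ n := by ring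
    rw [e1, e2]
    exact h6
  have h9 := le_of_mul_le_mul_left h8 (div_pos hab h2n)
  have h10 : 0 ≤ ∑ i' ∈ F, 1 / |(slope w n i' : ℝ)| :=
    Finset.sum_nonneg fun i' _ => by positivity
  show ∑ i' ∈ F, 1 / |(slope w n i' : ℝ)| ≤ η
  nlinarith

end Run7.h849.TK
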